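import Pool.Agent.H61.HB.Stmts

set_option autoImplicit false

namespace HB

open Filter Topology

theorem pth_thm (hISO : ISOStmt) : PTHStmt := by
  intro s T u hT
  obtain ⟨h1, h2, h3⟩ := hISO s
  have hd : ∀ f g : E, nsq s (toV s f - toV s g) = ‖f - g‖ ^ 2 := by
    intro f g
    rw [← h3, (h1 (f - g)).2]
  constructor
  · rintro ⟨hm, hc⟩
    choose g hg using fun t : Set.Icc (0 : ℝ) T => h2 (u t) (hm t t.2)
    refine ⟨⟨g, ?_⟩, hg⟩
    rw [continuous_iff_continuousAt]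
    intro t
    have h4 := hc t t.2
    rw [nhdsWithin_eq_map_subtype_coe t.2, tendsto_map'_iff] at h4
    have h5 : Tendsto (fun r : Set.Icc (0 : ℝ) T => ‖g r - g t‖ ^ 2) (𝓝 t) (𝓝 0) := by
      refine h4.congr ?_
      intro r
      show nsq s (u r - u t) = ‖g r - g t‖ ^ 2
      rw [← hd, hg, hg]
    have h6 : Tendsto (fun r : Set.Icc (0 : ℝ) T => ‖g r - g t‖) (𝓝 t) (𝓝 0) := by
      have h7 := (Real.continuous_sqrt.tendsto 0).comp h5
      rw [Real.sqrt_zero] at h7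
      refine h7.congr ?_
      intro r
      show √(‖g r - g t‖ ^ 2) = ‖g r - g t‖
      exact Real.sqrt_sq (norm_nonneg _)
    exact tendsto_iff_norm_sub_tendsto_zero.2 h6
  · rintro ⟨g, hg⟩
    refine ⟨?_, ?_⟩
    · intro t ht
      have := hg ⟨t, ht⟩
      rw [← this]
      exact (h1 _).1
    · intro t ht
      rw [nhdsWithin_eq_map_subtype_coe ht, tendsto_map'_iff]
      have h4 : Tendsto (fun r : Set.Icc (0 : ℝ) T => ‖g r - g ⟨t, ht⟩‖) (𝓝 ⟨t, ht⟩) (𝓝 0) :=
        tendsto_iff_norm_sub_tendsto_zero.1 (g.continuous.tendsto _)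
      have h5 := h4.pow 2
      rw [zero_pow two_ne_zero] at h5
      refine h5.congr ?_
      intro r
      show ‖g r - g ⟨t, ht⟩‖ ^ 2 = nsq s (u r - u t)
      rw [← hd, hg, hg]

end HB
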