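import Pool.Agent.H61.HB.Stmts

set_option autoImplicit false

namespace HB

theorem trb_thm (hCAN : CANStmt) (hSYM : SYMStmt) (hLIN : LINStmt) : TRBStmt := by
  intro m u hm hu hR hT
  obtain ⟨b, hb⟩ : ∃ b : Z2 → ℂ, b = lin ![m.1, m.2] u := ⟨_, rfl⟩
  rw [← hb]
  have hbk : ∀ k, b k = (m.1 : ℂ) * u 0 k + (m.2 : ℂ) * u 1 k := by
    intro k
    rw [hb]
    simp [lin, Fin.sum_univ_two]
  obtain ⟨N, hN⟩ : ∃ N : ℝ, N = m.1 ^ 2 + m.2 ^ 2 := ⟨_, rfl⟩
  have hN0 : N ≠ 0 := by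
    intro h
    apply hm
    have h1 : m.1 = 0 := by nlinarith [sq_nonneg m.1, sq_nonneg m.2]
    have h2 : m.2 = 0 := by nlinarith [sq_nonneg m.1, sq_nonneg m.2]
    exact Prod.ext h1 h2
  have hNC : (N : ℂ) ≠ 0 := by exact_mod_cast hN0
  have hNC' : (N : ℂ) = (m.1 : ℂ) ^ 2 + (m.2 : ℂ) ^ 2 := by
    rw [hN]; push_cast; ring
  have hbm : MemS 2 b := by
    rw [hb]
    exact hLIN.2.2.2 _ 2 u hu
  have hbr : ∀ k, b (-k) = (starRingEnd ℂ) (b k) := by
    intro k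
    rw [hbk, hbk, hR 0 k, hR 1 k]
    simp
  have hsc : ∀ c : ℝ, MemS 2 (fun l => (c : ℂ) * b l) := by
    intro c
    have h1 := Summable.mul_left (c ^ 2) hbm
    refine h1.congr ?_
    intro k
    rw [norm_mul, mul_pow, Complex.norm_real, Real.norm_eq_abs, sq_abs]
    ring
  let w : V := fun i l => (((![m.1, m.2] : Fin 2 → ℝ) i / N : ℝ) : ℂ) * b l
  have hwm : Mem 2 w := fun j => hsc _
  have hwr : Rl w := by
    intro j k
    show (((![m.1, m.2] : Fin 2 → ℝ) j / N : ℝ) : ℂ) * b (-k) =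
      (starRingEnd ℂ) ((((![m.1, m.2] : Fin 2 → ℝ) j / N : ℝ) : ℂ) * b k)
    rw [hbr, map_mul, Complex.conj_ofReal]
  have hw0 : ∀ l, w 0 l = ((m.1 / N : ℝ) : ℂ) * b l := fun l => rfl
  have hw1 : ∀ l, w 1 l = ((m.2 / N : ℝ) : ℂ) * b l := fun l => rfl
  have hc0 : ∀ k : Z2, co 0 k = (k.1 : ℝ) := fun k => by simp [co]
  have hc1 : ∀ k : Z2, co 1 k = (k.2 : ℝ) := fun k => by simp [co]
  have htrm : ∀ k l, trm u b k l = trm w b k l := by
    intro k l
    unfold trm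
    rw [Fin.sum_univ_two, Fin.sum_univ_two, hw0, hw1, hc0, hc1]
    have hp := hT (k - l)
    rw [← hbk] at hp
    rcases mul_eq_zero.1 hp with h | h
    · have h' : (m.1 : ℂ) * (((k - l).2 : ℤ) : ℂ) - (m.2 : ℂ) * (((k - l).1 : ℤ) : ℂ) = 0 := by
        have := h
        push_cast at this
        exact this
      have hbl := hbk l
      have key : (N : ℂ) * (u 0 l * (((k - l).1 : ℤ) : ℂ) + u 1 l * (((k - l).2 : ℤ) : ℂ)) =
          ((m.1 : ℂ) * (((k - l).1 : ℤ) : ℂ) + (m.2 : ℂ) * (((k - l).2 : ℤ) : ℂ)) * b l := by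
        rw [hbl, hNC']
        linear_combination ((m.1 : ℂ) * u 1 l - (m.2 : ℂ) * u 0 l) * h'
      have key2 : u 0 l * (((k - l).1 : ℤ) : ℂ) + u 1 l * (((k - l).2 : ℤ) : ℂ) =
          ((m.1 : ℂ) * (((k - l).1 : ℤ) : ℂ) + (m.2 : ℂ) * (((k - l).2 : ℤ) : ℂ)) * b l / N := by
        rw [eq_div_iff hNC, ← key]
        ring
      push_cast
      push_cast at key2
      linear_combination (Complex.I * b (k - l)) * key2
    · rw [h]
      ring
  have hdot : dot u b = dot w b := by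
    funext k
    unfold dot
    exact tsum_congr fun l => htrm k l
  rw [hdot]
  have h1 := hCAN w b hwm hwr hbm
  have h2 := hSYM (m.1 / N, m.2 / N) b hbm hbr
  have h3 : dvg w = (fun l : Z2 =>
      Complex.I * (((m.1 / N, m.2 / N).1 * l.1 + (m.1 / N, m.2 / N).2 * l.2 : ℝ) : ℂ) * b l) := by
    funext l
    unfold dvg
    rw [Fin.sum_univ_two, hw0, hw1, hc0, hc1]
    push_cast
    ring
  rw [h3, h2] at h1
  linarith

end HB
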